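import Pool.Agent.L7h3.GL.Stm

set_option autoImplicit false

/-! Project GL (helper3), part RNK: the rank function. -/

namespace Pool.Agent.L7h74.GL

open Cardinal Pool.Agent.L7h3.GL

theorem s_RNK : S_RNK := by
  intro L _ _ r hr
  have hfin : ∀ x : L, Order.height x < ⊤ := by
    intro x
    refine lt_of_le_of_lt (Order.height_mono (le_top : x ≤ ⊤)) ?_
    rw [hr]
    exact ENat.coe_lt_top r
  refine ⟨fun x => (Order.height x).toNat, ?_, ?_⟩
  · intro x y hxy
    have h1 : Order.height x < Order.height y := Order.height_strictMono hxy (hfin x)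
    have ex := ENat.coe_toNat (hfin x).ne
    have ey := ENat.coe_toNat (hfin y).ne
    rw [← ex, ← ey] at h1
    exact_mod_cast h1
  · intro c x y hcx hcy hxy
    have h1 : x ⊓ y = c := by
      have h2 : c ≤ x ⊓ y := le_inf hcx.le hcy
      rcases hcx.eq_or_eq h2 inf_le_left with h | h
      · exact h
      · exact absurd (inf_eq_left.mp h) hxy
    have h3 : x ⊓ y ⋖ x := by rw [h1]; exact hcx
    have := covBy_sup_of_inf_covBy_left h3
    rwa [sup_comm] at this

end Pool.Agent.L7h74.GL
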